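import Pool.Agent.Helper12.NK.St

/-!
# Project NK (MP_d63854_co), module FPB: a vertex outside a face of a 4-connected planar graph
-/

set_option autoImplicit false

namespace Pool.Agent.Helper83.NK

open Pool.Agent.Helper12.NK
open Pool.Agent.Helper51.AJ (IsMinor Planar Con Tch con_union con_singleton con_pair tch_symm tch_mono con_nonempty)

variable {V : Type}

theorem con_inl {G : SimpleGraph V} {U K : Set V} (hKU : K ⊆ U) (h : Con G K) :
    Con (plus G U) (Sum.inl '' K) := by
  let f : G.induce K →g (plus G U).induce (Sum.inl '' K) :=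
    { toFun := fun x => ⟨Sum.inl x.1, x.1, x.2, rfl⟩
      map_rel' := fun {a b} hab => (⟨hab, hKU a.2, hKU b.2⟩ : (rst G U).Adj a.1 b.1) }
  refine SimpleGraph.Connected.map f ?_ h
  rintro ⟨_, x, hx, rfl⟩
  exact ⟨⟨x, hx⟩, rfl⟩

theorem tch_inl {G : SimpleGraph V} {U K L : Set V} (hKU : K ⊆ U) (hLU : L ⊆ U) (h : Tch G K L) :
    Tch (plus G U) (Sum.inl '' K) (Sum.inl '' L) := by
  obtain ⟨x, hx, y, hy, h⟩ := h
  exact ⟨Sum.inl x, ⟨x, hx, rfl⟩, Sum.inl y, ⟨y, hy, rfl⟩, (⟨h, hKU hx, hLU hy⟩ : (rst G U).Adj x y)⟩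

theorem tch_inl1 {G : SimpleGraph V} {U L : Set V} {p : V} (hp : p ∈ U) (hLU : L ⊆ U) (h : Tch G {p} L) :
    Tch (plus G U) {Sum.inl p} (Sum.inl '' L) := by
  have := tch_inl (U := U) (K := {p}) (by simpa using hp) hLU h
  rwa [Set.image_singleton] at this

theorem face_sub {G : SimpleGraph V} {U F : Set V} (h : IsFace G U F) : F ⊆ U := by
  obtain ⟨m, c, h, rfl⟩ := h
  exact h.2.2.1

/-- the face `F` touches the vertices in it -/
theorem tch_face {G : SimpleGraph V} {U F K : Set V} (h : IsFace G U F) {x : V} (hx : x ∈ F) (hxK : x ∈ K) :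
    Tch (plus G U) (Sum.inl '' K) {Sum.inr ⟨F, h⟩} :=
  ⟨Sum.inl x, ⟨x, hxK, rfl⟩, _, rfl, hx⟩

theorem adj_face {G : SimpleGraph V} {U F : Set V} (h : IsFace G U F) {x : V} (hx : x ∈ F) :
    (plus G U).Adj (Sum.inl x) (Sum.inr ⟨F, h⟩) := hx

theorem adj_face' {G : SimpleGraph V} {U F : Set V} (h : IsFace G U F) {x : V} (hx : x ∈ F) :
    (plus G U).Adj (Sum.inr ⟨F, h⟩) (Sum.inl x) := hx

theorem tch_pt {G : SimpleGraph V} {S T : Set V} {x y : V} (hx : x ∈ S) (hy : y ∈ T) (h : G.Adj x y) : Tch G S T :=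
  ⟨x, hx, y, hy, h⟩

theorem disj_inl {α β : Type} {K L : Set α} (h : Disjoint K L) :
    Disjoint (Sum.inl '' K : Set (α ⊕ β)) (Sum.inl '' L) := by
  rw [Set.disjoint_left] at h ⊢
  rintro _ ⟨x, hx, rfl⟩ ⟨y, hy, hxy⟩
  rw [Sum.inl.injEq] at hxy
  subst hxy
  exact h hx hy

/-- a path is connected -/
theorem con_path {G : SimpleGraph V} (f : ℕ → V) (a b : ℕ) (hab : a ≤ b)
    (h : ∀ t, a ≤ t → t < b → G.Adj (f t) (f (t + 1))) : Con G {x | ∃ t, a ≤ t ∧ t ≤ b ∧ f t = x} := by
  induction b, hab using Nat.le_induction with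
  | base =>
    have : {x | ∃ t, a ≤ t ∧ t ≤ a ∧ f t = x} = {f a} := by
      ext x
      constructor
      · rintro ⟨t, h1, h2, rfl⟩
        rw [le_antisymm h2 h1]
        rfl
      · rintro rfl
        exact ⟨a, le_rfl, le_rfl, rfl⟩
    rw [this]
    exact con_singleton G _
  | succ b hab ih =>
    have h1 := ih fun t h1 h2 => h t h1 (by omega)
    have : {x | ∃ t, a ≤ t ∧ t ≤ b + 1 ∧ f t = x} = {x | ∃ t, a ≤ t ∧ t ≤ b ∧ f t = x} ∪ {f (b + 1)} := by
      ext x
      constructor
      · rintro ⟨t, h1, h2, rfl⟩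
        rcases Nat.lt_or_ge t (b + 1) with h3 | h3
        · exact Or.inl ⟨t, h1, by omega, rfl⟩
        · right
          rw [le_antisymm h2 h3]
          rfl
      · rintro (⟨t, h1, h2, rfl⟩ | rfl)
        · exact ⟨t, h1, by omega, rfl⟩
        · exact ⟨b + 1, by omega, le_rfl, rfl⟩
    rw [this]
    exact con_union h1 (con_singleton G _) ⟨f b, ⟨b, hab, le_rfl, rfl⟩, f (b + 1), rfl, h b hab (by omega)⟩

/-- two vertices of a face which are not adjacent: the two open arcs -/
theorem arcs {G : SimpleGraph V} {U F : Set V} (hF : IsFace G U F) {p q : V} (hp : p ∈ F) (hq : q ∈ F) (hpq : p ≠ q)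
    (hn : ¬ G.Adj p q) : ∃ K L : Set V, K ⊆ F ∧ L ⊆ F ∧ Disjoint K L ∧ p ∉ K ∧ p ∉ L ∧ q ∉ K ∧ q ∉ L ∧ Con G K ∧
      Con G L ∧ Tch G {p} K ∧ Tch G {p} L ∧ Tch G {q} K ∧ Tch G {q} L := by
  obtain ⟨m, c, ⟨hm, hc, hcU, hadj, -⟩, rfl⟩ := hF
  obtain ⟨i, rfl⟩ := hp
  obtain ⟨j, rfl⟩ := hq
  have : NeZero m := ⟨by omega⟩
  obtain ⟨k, hk, hj⟩ : ∃ k : ℕ, k < m ∧ j = i + (k : ZMod m) :=
    ⟨(j - i).val, ZMod.val_lt _, by rw [ZMod.natCast_zmod_val]; ring⟩
  subst hj
  have hinj : ∀ s t : ℕ, s < m → t < m → i + (s : ZMod m) = i + (t : ZMod m) → s = t := by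
    intro s t hs ht h
    have h := add_left_cancel h
    rw [ZMod.natCast_eq_natCast_iff'] at h
    rwa [Nat.mod_eq_of_lt hs, Nat.mod_eq_of_lt ht] at h
  have hne : k ≠ 0 := by
    rintro rfl
    exact hpq (by simp)
  have hne1 : k ≠ 1 := by
    rintro rfl
    exact hn ((hadj _ _).2 (Or.inl (by push_cast; ring)))
  have hm0 : (m : ZMod m) = 0 := ZMod.natCast_self m
  have hnem : k ≠ m - 1 := by
    intro h
    refine hn ((hadj _ _).2 (Or.inr ?_))
    have h1 : ((k + 1 : ℕ) : ZMod m) = 0 := by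
      rw [show k + 1 = m by omega, hm0]
    push_cast at h1
    rw [add_assoc, h1, add_zero]
  have hstep : ∀ t : ℕ, G.Adj (c (i + (t : ZMod m))) (c (i + ((t + 1 : ℕ) : ZMod m))) := by
    intro t
    exact (hadj _ _).2 (Or.inl (by push_cast; ring))
  have key : ∀ s t : ℕ, s < m → t < m → c (i + (s : ZMod m)) = c (i + (t : ZMod m)) → s = t :=
    fun s t hs ht h => hinj s t hs ht (hc h)
  have hi0 : c i = c (i + ((0 : ℕ) : ZMod m)) := by simp
  have him : c i = c (i + ((m : ℕ) : ZMod m)) := by rw [hm0, add_zero]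
  refine ⟨{x | ∃ t, 1 ≤ t ∧ t ≤ k - 1 ∧ c (i + (t : ZMod m)) = x},
    {x | ∃ t, k + 1 ≤ t ∧ t ≤ m - 1 ∧ c (i + (t : ZMod m)) = x}, ?_, ?_, ?_, ?_, ?_, ?_, ?_, ?_, ?_, ?_, ?_, ?_, ?_⟩
  · rintro _ ⟨t, -, -, rfl⟩
    exact ⟨_, rfl⟩
  · rintro _ ⟨t, -, -, rfl⟩
    exact ⟨_, rfl⟩
  · rw [Set.disjoint_left]
    rintro _ ⟨t, h1, h2, rfl⟩ ⟨s, h3, h4, h5⟩
    have := key _ _ (by omega) (by omega) h5
    omega
  · rintro ⟨t, h1, h2, h3⟩
    rw [hi0] at h3
    have := key _ _ (by omega) (by omega) h3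
    omega
  · rintro ⟨t, h1, h2, h3⟩
    rw [hi0] at h3
    have := key _ _ (by omega) (by omega) h3
    omega
  · rintro ⟨t, h1, h2, h3⟩
    have := key _ _ (by omega) (by omega) h3
    omega
  · rintro ⟨t, h1, h2, h3⟩
    have := key _ _ (by omega) (by omega) h3
    omega
  · exact con_path (fun t : ℕ => c (i + (t : ZMod m))) 1 (k - 1) (by omega) fun t _ _ => hstep t
  · exact con_path (fun t : ℕ => c (i + (t : ZMod m))) (k + 1) (m - 1) (by omega) fun t _ _ => hstep t
  · refine ⟨_, rfl, _, ⟨1, le_rfl, by omega, rfl⟩, ?_⟩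
    rw [hi0]
    exact hstep 0
  · refine ⟨_, rfl, _, ⟨m - 1, by omega, le_rfl, rfl⟩, ?_⟩
    have := hstep (m - 1)
    rw [show m - 1 + 1 = m by omega, ← him] at this
    exact this.symm
  · refine ⟨_, rfl, _, ⟨k - 1, by omega, le_rfl, rfl⟩, ?_⟩
    have := hstep (k - 1)
    rw [show k - 1 + 1 = k by omega] at this
    exact this.symm
  · exact ⟨_, rfl, _, ⟨k + 1, le_rfl, by omega, rfl⟩, hstep k⟩

/-- the set `{w} ∪ faces` -/
theorem con_star {G : SimpleGraph V} {U : Set V} {w : V} {n : ℕ} (F : Fin n → {F : Set V // IsFace G U F})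
    (h : ∀ i, w ∈ (F i).1) :
    Con (plus G U) ({Sum.inl w} ∪ Set.range fun i => (Sum.inr (F i) : V ⊕ {F : Set V // IsFace G U F})) := by
  unfold Pool.Agent.Helper51.AJ.Con
  rw [SimpleGraph.connected_iff_exists_forall_reachable]
  refine ⟨⟨Sum.inl w, Or.inl rfl⟩, ?_⟩
  rintro ⟨x, rfl | ⟨i, rfl⟩⟩
  · exact SimpleGraph.Reachable.refl _
  · exact SimpleGraph.Adj.reachable (show (plus G U).Adj (Sum.inl w) (Sum.inr (F i)) from h i)

theorem hFPB : StKCA → StKCB → StPAR → StMNR → StPLS → StFPB := by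
  intro hKCA hKCB hPAR hMNR hPLS V _ G U h4 hpl
  have h3 : Kc 3 G U := (hKCA V G U).1 3 h4
  have hP : Planar (plus G U) := hPLS V G U h3 hpl
  obtain ⟨hK5, hK33⟩ := hMNR _ _ hP
  have hdeg := (hKCA V G U).2.2.1 4 h4
  refine ⟨?_, ?_, ?_⟩
  · intro F t w hF ht htF hw hwF hcof
    choose F' hF' htF' hwF' using hcof
    have hFU := face_sub hF
    have htw : ∀ i, t i ≠ w := by
      intro i h
      exact hwF (h ▸ htF i)
    have hSU : insert w (Set.range t) ⊆ U := by
      rintro x (rfl | ⟨i, rfl⟩)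
      · exact hw
      · exact hFU (htF i)
    have hS4 : (insert w (Set.range t)).ncard = 4 := by
      rw [Set.ncard_insert_of_notMem (by rintro ⟨i, hi⟩; exact htw i hi) (Set.toFinite _), ← Set.image_univ,
        Set.ncard_image_of_injective _ ht, Set.ncard_univ]
      simp
    obtain ⟨K, hKU, hKc, hK⟩ := ((hKCB V G U).1 4 _ h4 hSU hS4).1
    have hKU' : K ⊆ U := fun x hx => (hKU hx).1
    have hKt : ∀ i, t i ∉ K := fun i h => (hKU h).2 (Or.inr ⟨i, rfl⟩)
    have hKw : w ∉ K := fun h => (hKU h).2 (Or.inl rfl)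
    have hne : ∀ i, (⟨F' i, hF' i⟩ : {F : Set V // IsFace G U F}) ≠ ⟨F, hF⟩ := by
      intro i h
      rw [Subtype.mk.injEq] at h
      exact hwF (h ▸ hwF' i)
    refine hK33 (fun i => {Sum.inl (t i)})
      ![{Sum.inr ⟨F, hF⟩}, {Sum.inl w} ∪ Set.range fun i => Sum.inr ⟨F' i, hF' i⟩, Sum.inl '' K]
      (fun i => con_singleton _ _) ?_ ?_ ?_ ?_ ?_
    · intro i
      fin_cases i
      · exact con_singleton _ _
      · exact con_star (fun i => ⟨F' i, hF' i⟩) hwF'
      · exact con_inl hKU' hKc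
    · intro i j hij
      rw [Set.disjoint_singleton]
      intro h
      exact hij (ht (Sum.inl.inj h))
    · have h01 : Disjoint ({Sum.inr ⟨F, hF⟩} : Set (V ⊕ {F : Set V // IsFace G U F}))
          ({Sum.inl w} ∪ Set.range fun i => Sum.inr ⟨F' i, hF' i⟩) := by
        rw [Set.disjoint_singleton_left]
        rintro (h | ⟨i, h⟩)
        · exact absurd h (by simp)
        · exact hne i (Sum.inr.inj h)
      have h02 : Disjoint ({Sum.inr ⟨F, hF⟩} : Set (V ⊕ {F : Set V // IsFace G U F})) (Sum.inl '' K) := by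
        rw [Set.disjoint_singleton_left]
        rintro ⟨x, -, h⟩
        exact absurd h (by simp)
      have h12 : Disjoint ({Sum.inl w} ∪ Set.range fun i => Sum.inr ⟨F' i, hF' i⟩ :
          Set (V ⊕ {F : Set V // IsFace G U F})) (Sum.inl '' K) := by
        rw [Set.disjoint_left]
        rintro _ (rfl | ⟨i, rfl⟩) ⟨x, hx, h⟩
        · exact hKw (Sum.inl.inj h ▸ hx)
        · exact absurd h (by simp)
      intro i j hij
      fin_cases i <;> fin_cases j
      · exact absurd rfl hij
      · exact h01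
      · exact h02
      · exact h01.symm
      · exact absurd rfl hij
      · exact h12
      · exact h02.symm
      · exact h12.symm
      · exact absurd rfl hij
    · intro i j
      rw [Set.disjoint_singleton_left]
      fin_cases j
      · intro h
        exact absurd (Set.mem_singleton_iff.1 h) (by simp)
      · rintro (h | ⟨k, h⟩)
        · exact htw i (Sum.inl.inj h)
        · exact absurd h (by simp)
      · rintro ⟨x, hx, h⟩
        exact hKt i (Sum.inl.inj h ▸ hx)
    · intro i j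
      fin_cases j
      · exact tch_pt rfl rfl (adj_face hF (htF i))
      · exact tch_pt rfl (Or.inr ⟨i, rfl⟩) (adj_face (hF' i) (htF' i))
      · exact tch_inl1 (hFU (htF i)) hKU' (hK _ (Or.inr ⟨i, rfl⟩))
  · intro F p q w hF hp hq hpq hn hw hwF hcp hcq
    obtain ⟨F₁, hF₁, hp1, hw1⟩ := hcp
    obtain ⟨F₂, hF₂, hq2, hw2⟩ := hcq
    have hFU := face_sub hF
    obtain ⟨K, L, hKF, hLF, hKL, hpK, hpL, hqK, hqL, hKc, hLc, tpK, tpL, tqK, tqL⟩ := arcs hF hp hq hpq hn
    have hX : ({p, q, w} : Set V).ncard < 4 := by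
      have := Set.ncard_insert_le p {q, w}
      have := Set.ncard_insert_le q {w}
      rw [Set.ncard_singleton] at this
      omega
    have hWc : Con G (U \ {p, q, w}) := h4.2 _ hX
    have hKW : K ⊆ U \ {p, q, w} := by
      intro x hx
      refine ⟨hFU (hKF hx), ?_⟩
      rintro (rfl | rfl | rfl)
      · exact hpK hx
      · exact hqK hx
      · exact hwF (hKF hx)
    have hLW : L ⊆ U \ {p, q, w} := by
      intro x hx
      refine ⟨hFU (hLF hx), ?_⟩
      rintro (rfl | rfl | rfl)
      · exact hpL hx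
      · exact hqL hx
      · exact hwF (hLF hx)
    obtain ⟨K', L', hKK, hLL, hd, hun, hKc', hLc', htKL⟩ := hPAR V G _ K L hWc hKc hLc hKW hLW hKL
    have hKU' : K' ⊆ U := fun x hx => ((hun ▸ Or.inl hx : x ∈ U \ {p, q, w})).1
    have hLU' : L' ⊆ U := fun x hx => ((hun ▸ Or.inr hx : x ∈ U \ {p, q, w})).1
    have hKn : ∀ x ∈ K', x ≠ p ∧ x ≠ q ∧ x ≠ w := by
      intro x hx
      have := (hun ▸ Or.inl hx : x ∈ U \ {p, q, w}).2
      simp only [Set.mem_insert_iff, Set.mem_singleton_iff, not_or] at this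
      exact this
    have hLn : ∀ x ∈ L', x ≠ p ∧ x ≠ q ∧ x ≠ w := by
      intro x hx
      have := (hun ▸ Or.inr hx : x ∈ U \ {p, q, w}).2
      simp only [Set.mem_insert_iff, Set.mem_singleton_iff, not_or] at this
      exact this
    have hne1 : (⟨F₁, hF₁⟩ : {F : Set V // IsFace G U F}) ≠ ⟨F, hF⟩ := by
      intro h
      rw [Subtype.mk.injEq] at h
      exact hwF (h ▸ hw1)
    have hne2 : (⟨F₂, hF₂⟩ : {F : Set V // IsFace G U F}) ≠ ⟨F, hF⟩ := by
      intro h
      rw [Subtype.mk.injEq] at h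
      exact hwF (h ▸ hw2)
    obtain ⟨a, ha⟩ := con_nonempty hKc
    obtain ⟨b, hb⟩ := con_nonempty hLc
    have hqw : q ≠ w := fun h => hwF (h ▸ hq)
    let A : Set (V ⊕ {F : Set V // IsFace G U F}) :=
      {Sum.inl p, Sum.inr ⟨F₁, hF₁⟩} ∪ {Sum.inl w, Sum.inr ⟨F₂, hF₂⟩}
    have hAc : Con (plus G U) A := by
      refine con_union (con_pair (adj_face hF₁ hp1)) (con_pair (adj_face hF₂ hw2)) ?_
      exact tch_pt (Or.inr rfl) (Or.inl rfl) (adj_face' hF₁ hw1)
    have hAmem : ∀ x : V, Sum.inl x ∈ A → x = p ∨ x = w := by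
      rintro x ((h | h) | (h | h))
      · exact Or.inl (Sum.inl.inj h)
      · exact absurd (Set.mem_singleton_iff.1 h) (by simp)
      · exact Or.inr (Sum.inl.inj h)
      · exact absurd (Set.mem_singleton_iff.1 h) (by simp)
    have hAF : Sum.inr ⟨F, hF⟩ ∉ A := by
      rintro ((h | h) | (h | h))
      · exact absurd h (by simp)
      · exact hne1 (Sum.inr.inj h).symm
      · exact absurd h (by simp)
      · exact hne2 (Sum.inr.inj h).symm
    have d01 : Disjoint A {Sum.inl q} := by
      rw [Set.disjoint_singleton_right]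
      intro h
      rcases hAmem _ h with h | h
      · exact hpq h.symm
      · exact hqw h
    have d02 : Disjoint A {Sum.inr ⟨F, hF⟩} := by
      rw [Set.disjoint_singleton_right]
      exact hAF
    have d03 : Disjoint A (Sum.inl '' K') := by
      rw [Set.disjoint_right]
      rintro _ ⟨x, hx, rfl⟩ h
      rcases hAmem _ h with h | h
      · exact (hKn x hx).1 h
      · exact (hKn x hx).2.2 h
    have d04 : Disjoint A (Sum.inl '' L') := by
      rw [Set.disjoint_right]
      rintro _ ⟨x, hx, rfl⟩ h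
      rcases hAmem _ h with h | h
      · exact (hLn x hx).1 h
      · exact (hLn x hx).2.2 h
    have d12 : Disjoint ({Sum.inl q} : Set (V ⊕ {F : Set V // IsFace G U F})) {Sum.inr ⟨F, hF⟩} := by
      rw [Set.disjoint_singleton]
      simp
    have d13 : Disjoint ({Sum.inl q} : Set (V ⊕ {F : Set V // IsFace G U F})) (Sum.inl '' K') := by
      rw [Set.disjoint_singleton_left]
      rintro ⟨x, hx, h⟩
      exact (hKn x hx).2.1 (Sum.inl.inj h)
    have d14 : Disjoint ({Sum.inl q} : Set (V ⊕ {F : Set V // IsFace G U F})) (Sum.inl '' L') := by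
      rw [Set.disjoint_singleton_left]
      rintro ⟨x, hx, h⟩
      exact (hLn x hx).2.1 (Sum.inl.inj h)
    have d23 : Disjoint ({Sum.inr ⟨F, hF⟩} : Set (V ⊕ {F : Set V // IsFace G U F})) (Sum.inl '' K') := by
      rw [Set.disjoint_singleton_left]
      rintro ⟨x, hx, h⟩
      exact absurd h (by simp)
    have d24 : Disjoint ({Sum.inr ⟨F, hF⟩} : Set (V ⊕ {F : Set V // IsFace G U F})) (Sum.inl '' L') := by
      rw [Set.disjoint_singleton_left]
      rintro ⟨x, hx, h⟩
      exact absurd h (by simp)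
    have d34 : Disjoint (Sum.inl '' K' : Set (V ⊕ {F : Set V // IsFace G U F})) (Sum.inl '' L') := disj_inl hd
    have t01 : Tch (plus G U) A {Sum.inl q} := tch_pt (Or.inr (Or.inr rfl)) rfl (adj_face' hF₂ hq2)
    have t02 : Tch (plus G U) A {Sum.inr ⟨F, hF⟩} := tch_pt (Or.inl (Or.inl rfl)) rfl (adj_face hF hp)
    have t03 : Tch (plus G U) A (Sum.inl '' K') := by
      refine tch_mono (tch_inl1 (hFU hp) hKU' (tch_mono tpK subset_rfl hKK)) ?_ subset_rfl
      rintro _ rfl
      exact Or.inl (Or.inl rfl)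
    have t04 : Tch (plus G U) A (Sum.inl '' L') := by
      refine tch_mono (tch_inl1 (hFU hp) hLU' (tch_mono tpL subset_rfl hLL)) ?_ subset_rfl
      rintro _ rfl
      exact Or.inl (Or.inl rfl)
    have t12 : Tch (plus G U) {Sum.inl q} {Sum.inr ⟨F, hF⟩} := tch_pt rfl rfl (adj_face hF hq)
    have t13 : Tch (plus G U) {Sum.inl q} (Sum.inl '' K') := tch_inl1 (hFU hq) hKU' (tch_mono tqK subset_rfl hKK)
    have t14 : Tch (plus G U) {Sum.inl q} (Sum.inl '' L') := tch_inl1 (hFU hq) hLU' (tch_mono tqL subset_rfl hLL)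
    have t23 : Tch (plus G U) {Sum.inr ⟨F, hF⟩} (Sum.inl '' K') := tch_symm (tch_face hF (hKF ha) (hKK ha))
    have t24 : Tch (plus G U) {Sum.inr ⟨F, hF⟩} (Sum.inl '' L') := tch_symm (tch_face hF (hLF hb) (hLL hb))
    have t34 : Tch (plus G U) (Sum.inl '' K') (Sum.inl '' L') := tch_inl hKU' hLU' htKL
    refine hK5 ![A, {Sum.inl q}, {Sum.inr ⟨F, hF⟩}, Sum.inl '' K', Sum.inl '' L'] ?_ ?_ ?_
    · intro i
      fin_cases i
      · exact hAc
      · exact con_singleton _ _
      · exact con_singleton _ _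
      · exact con_inl hKU' hKc'
      · exact con_inl hLU' hLc'
    · intro i j hij
      fin_cases i <;> fin_cases j
      · exact absurd rfl hij
      · exact d01
      · exact d02
      · exact d03
      · exact d04
      · exact d01.symm
      · exact absurd rfl hij
      · exact d12
      · exact d13
      · exact d14
      · exact d02.symm
      · exact d12.symm
      · exact absurd rfl hij
      · exact d23
      · exact d24
      · exact d03.symm
      · exact d13.symm
      · exact d23.symm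
      · exact absurd rfl hij
      · exact d34
      · exact d04.symm
      · exact d14.symm
      · exact d24.symm
      · exact d34.symm
      · exact absurd rfl hij
    · intro i j hij
      fin_cases i <;> fin_cases j
      · exact absurd rfl hij
      · exact t01
      · exact t02
      · exact t03
      · exact t04
      · exact tch_symm t01
      · exact absurd rfl hij
      · exact t12
      · exact t13
      · exact t14
      · exact tch_symm t02
      · exact tch_symm t12
      · exact absurd rfl hij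
      · exact t23
      · exact t24
      · exact tch_symm t03
      · exact tch_symm t13
      · exact tch_symm t23
      · exact absurd rfl hij
      · exact t34
      · exact tch_symm t04
      · exact tch_symm t14
      · exact tch_symm t24
      · exact tch_symm t34
      · exact absurd rfl hij
  · intro F F' p q w hF hF' hFF hp hq hp' hq' hpq hadj hw hwF hwF' hcp hcq
    obtain ⟨F₁, hF₁, hp1, hw1⟩ := hcp
    obtain ⟨F₂, hF₂, hq2, hw2⟩ := hcq
    have hFU := face_sub hF
    have hX : ({p, q, w} : Set V).ncard < 4 := by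
      have := Set.ncard_insert_le p {q, w}
      have := Set.ncard_insert_le q {w}
      rw [Set.ncard_singleton] at this
      omega
    have hKc : Con G (U \ {p, q, w}) := h4.2 _ hX
    have hKU : U \ {p, q, w} ⊆ U := fun x hx => hx.1
    have hKn : ∀ x ∈ U \ {p, q, w}, x ≠ p ∧ x ≠ q ∧ x ≠ w := by
      intro x hx
      have := hx.2
      simp only [Set.mem_insert_iff, Set.mem_singleton_iff, not_or] at this
      exact this
    have htch : ∀ x ∈ U, x ∈ ({p, q, w} : Set V) → Tch G {x} (U \ {p, q, w}) := by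
      intro x hxU _
      by_contra hno
      have hsub : {b | b ∈ U ∧ G.Adj x b} ⊆ {p, q, w} := by
        rintro b ⟨hb, hxb⟩
        by_contra hbn
        exact hno ⟨x, rfl, b, ⟨hb, hbn⟩, hxb⟩
      have h5 := Set.ncard_le_ncard hsub (Set.toFinite _)
      have h6 := hdeg x hxU
      omega
    have hthird : ∀ F₀ : Set V, IsFace G U F₀ → w ∉ F₀ → ∃ x ∈ F₀, x ∈ U \ {p, q, w} := by
      intro F₀ hF₀ hw0
      have hF0U := face_sub hF₀
      obtain ⟨m, c, ⟨hm, hc, -, -, -⟩, rfl⟩ := hF₀
      have : NeZero m := ⟨by omega⟩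
      by_contra hno
      have hsub : Set.range c ⊆ {p, q} := by
        intro x hx
        by_contra hxn
        refine hno ⟨x, hx, hF0U hx, ?_⟩
        rintro (h | h | h)
        · exact hxn (Or.inl h)
        · exact hxn (Or.inr h)
        · exact hw0 (h ▸ hx)
      have h5 := Set.ncard_le_ncard hsub (Set.toFinite _)
      rw [← Set.image_univ, Set.ncard_image_of_injective _ hc, Set.ncard_univ, Nat.card_zmod] at h5
      have h6 := Set.ncard_insert_le p {q}
      rw [Set.ncard_singleton] at h6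
      omega
    obtain ⟨x, hxF, hx⟩ := hthird F hF hwF
    obtain ⟨x', hxF', hx'⟩ := hthird F' hF' hwF'
    have hne1 : (⟨F₁, hF₁⟩ : {F : Set V // IsFace G U F}) ≠ ⟨F, hF⟩ := by
      intro h
      rw [Subtype.mk.injEq] at h
      exact hwF (h ▸ hw1)
    have hne2 : (⟨F₂, hF₂⟩ : {F : Set V // IsFace G U F}) ≠ ⟨F, hF⟩ := by
      intro h
      rw [Subtype.mk.injEq] at h
      exact hwF (h ▸ hw2)
    have hne1' : (⟨F₁, hF₁⟩ : {F : Set V // IsFace G U F}) ≠ ⟨F', hF'⟩ := by
      intro h
      rw [Subtype.mk.injEq] at h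
      exact hwF' (h ▸ hw1)
    have hne2' : (⟨F₂, hF₂⟩ : {F : Set V // IsFace G U F}) ≠ ⟨F', hF'⟩ := by
      intro h
      rw [Subtype.mk.injEq] at h
      exact hwF' (h ▸ hw2)
    have hpw : p ≠ w := fun h => hwF (h ▸ hp)
    have hqw : q ≠ w := fun h => hwF (h ▸ hq)
    let A : Set (V ⊕ {F : Set V // IsFace G U F}) :=
      {Sum.inl w} ∪ Set.range fun i : Fin 2 => Sum.inr (![⟨F₁, hF₁⟩, ⟨F₂, hF₂⟩] i)
    have hAc : Con (plus G U) A := by
      refine con_star _ ?_
      intro i
      fin_cases i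
      · exact hw1
      · exact hw2
    have hAmem : ∀ x : V, Sum.inl x ∈ A → x = w := by
      rintro x (h | ⟨i, h⟩)
      · exact Sum.inl.inj h
      · exact absurd h (by simp)
    have hAF : ∀ F₀ : {F : Set V // IsFace G U F}, (⟨F₁, hF₁⟩ : {F : Set V // IsFace G U F}) ≠ F₀ →
        (⟨F₂, hF₂⟩ : {F : Set V // IsFace G U F}) ≠ F₀ → Sum.inr F₀ ∉ A := by
      intro F₀ h1 h2
      rintro (h | ⟨i, h⟩)
      · exact absurd (Set.mem_singleton_iff.1 h) (by simp)
      · have h := Sum.inr.inj h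
        fin_cases i
        · exact h1 h
        · exact h2 h
    refine hK33 ![{Sum.inl p}, {Sum.inl q}, Sum.inl '' (U \ {p, q, w})] ![{Sum.inr ⟨F, hF⟩}, {Sum.inr ⟨F', hF'⟩}, A]
      ?_ ?_ ?_ ?_ ?_ ?_
    · intro i
      fin_cases i
      · exact con_singleton _ _
      · exact con_singleton _ _
      · exact con_inl hKU hKc
    · intro i
      fin_cases i
      · exact con_singleton _ _
      · exact con_singleton _ _
      · exact hAc
    · have h01 : Disjoint ({Sum.inl p} : Set (V ⊕ {F : Set V // IsFace G U F})) {Sum.inl q} := by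
        rw [Set.disjoint_singleton]
        exact fun h => hpq (Sum.inl.inj h)
      have h02 : Disjoint ({Sum.inl p} : Set (V ⊕ {F : Set V // IsFace G U F})) (Sum.inl '' (U \ {p, q, w})) := by
        rw [Set.disjoint_singleton_left]
        rintro ⟨x, hx, h⟩
        exact (hKn x hx).1 (Sum.inl.inj h)
      have h12 : Disjoint ({Sum.inl q} : Set (V ⊕ {F : Set V // IsFace G U F})) (Sum.inl '' (U \ {p, q, w})) := by
        rw [Set.disjoint_singleton_left]
        rintro ⟨x, hx, h⟩
        exact (hKn x hx).2.1 (Sum.inl.inj h)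
      intro i j hij
      fin_cases i <;> fin_cases j
      · exact absurd rfl hij
      · exact h01
      · exact h02
      · exact h01.symm
      · exact absurd rfl hij
      · exact h12
      · exact h02.symm
      · exact h12.symm
      · exact absurd rfl hij
    · have h01 : Disjoint ({Sum.inr ⟨F, hF⟩} : Set (V ⊕ {F : Set V // IsFace G U F})) {Sum.inr ⟨F', hF'⟩} := by
        rw [Set.disjoint_singleton]
        intro h
        have h := Sum.inr.inj h
        rw [Subtype.mk.injEq] at h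
        exact hFF h
      have h02 : Disjoint ({Sum.inr ⟨F, hF⟩} : Set (V ⊕ {F : Set V // IsFace G U F})) A := by
        rw [Set.disjoint_singleton_left]
        exact hAF _ hne1 hne2
      have h12 : Disjoint ({Sum.inr ⟨F', hF'⟩} : Set (V ⊕ {F : Set V // IsFace G U F})) A := by
        rw [Set.disjoint_singleton_left]
        exact hAF _ hne1' hne2'
      intro i j hij
      fin_cases i <;> fin_cases j
      · exact absurd rfl hij
      · exact h01
      · exact h02
      · exact h01.symm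
      · exact absurd rfl hij
      · exact h12
      · exact h02.symm
      · exact h12.symm
      · exact absurd rfl hij
    · have hpF : ∀ (y : V) (F₀ : {F : Set V // IsFace G U F}),
          Disjoint ({Sum.inl y} : Set (V ⊕ {F : Set V // IsFace G U F})) {Sum.inr F₀} := by
        intro y F₀
        rw [Set.disjoint_singleton]
        simp
      have hpA : ∀ y : V, y ≠ w → Disjoint ({Sum.inl y} : Set (V ⊕ {F : Set V // IsFace G U F})) A := by
        intro y hy
        rw [Set.disjoint_singleton_left]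
        exact fun h => hy (hAmem _ h)
      have hKF : ∀ F₀ : {F : Set V // IsFace G U F},
          Disjoint (Sum.inl '' (U \ {p, q, w}) : Set (V ⊕ {F : Set V // IsFace G U F})) {Sum.inr F₀} := by
        intro F₀
        rw [Set.disjoint_singleton_right]
        rintro ⟨x, hx, h⟩
        exact absurd h (by simp)
      have hKA : Disjoint (Sum.inl '' (U \ {p, q, w}) : Set (V ⊕ {F : Set V // IsFace G U F})) A := by
        rw [Set.disjoint_left]
        rintro _ ⟨x, hx, rfl⟩ h
        exact (hKn x hx).2.2 (hAmem _ h)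
      intro i j
      fin_cases i <;> fin_cases j
      · exact hpF _ _
      · exact hpF _ _
      · exact hpA p hpw
      · exact hpF _ _
      · exact hpF _ _
      · exact hpA q hqw
      · exact hKF _
      · exact hKF _
      · exact hKA
    · intro i j
      fin_cases i <;> fin_cases j
      · exact tch_pt rfl rfl (adj_face hF hp)
      · exact tch_pt rfl rfl (adj_face hF' hp')
      · exact tch_pt rfl (Or.inr ⟨0, rfl⟩) (adj_face hF₁ hp1)
      · exact tch_pt rfl rfl (adj_face hF hq)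
      · exact tch_pt rfl rfl (adj_face hF' hq')
      · exact tch_pt rfl (Or.inr ⟨1, rfl⟩) (adj_face hF₂ hq2)
      · exact tch_face hF hxF hx
      · exact tch_face hF' hxF' hx'
      · refine tch_symm (tch_mono (tch_inl1 hw hKU (htch w hw (Or.inr (Or.inr rfl)))) ?_ subset_rfl)
        rintro _ rfl
        exact Or.inl rfl

end Pool.Agent.Helper83.NK
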